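import Pool.Agent.Lib.MP_b48bf9_nt.Main

open Polynomial

/-- A multiple of (X - 1)^k by cyclotomic polynomials, of degree at most k^A, has length at least
(2 + 2 / (A - 1) - ε) k for large k. -/
theorem Pool.Agent.Results.MP_b48bf9_nt.PolynomialDegree.result (A ε : ℝ) (hA : 1 < A)
    (hε : 0 < ε) : ∃ k₀ : ℕ, ∀ k : ℕ, k₀ ≤ k → ∀ s : Multiset ℕ, (∀ n ∈ s, 0 < n) → ∀ P : ℤ[X],
      P = (X - 1) ^ k * (s.map fun n => cyclotomic n ℤ).prod → (P.natDegree : ℝ) ≤ (k : ℝ) ^ A →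
        (2 + 2 / (A - 1) - ε) * k ≤ ((∑ i ∈ P.support, |P.coeff i| : ℤ) : ℝ) := by
  obtain ⟨k₀, h⟩ := Pool.Agent.Lib.MP_b48bf9_nt.main hA hε
  refine ⟨k₀, fun k hk s hs P hP hd => ?_⟩
  subst hP
  rw [← Pool.Agent.Lib.MP_b48bf9_nt.cast_len]
  exact h k hk s hs hd
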