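import Pool.Agent.Lib.SH56.Main27

open Polynomial

/-- The shortness of the seventh power of X - 1 is 16. -/
theorem Pool.Agent.Results.MP_b48bf9_nt.Seven.result :
    IsLeast {L : ℤ | ∃ s : Multiset ℕ, (∀ n ∈ s, 0 < n) ∧ ∃ P : ℤ[X],
      P = (X - 1) ^ 7 * (s.map fun n => cyclotomic n ℤ).prod ∧
        L = ∑ i ∈ P.support, |P.coeff i|} 16 := by
  obtain ⟨⟨s, hs, e⟩, h⟩ := Pool.Agent.Lib.SH56.main27
  refine ⟨⟨s, hs, _, rfl, e⟩, ?_⟩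
  rintro L ⟨t, ht, P, rfl, rfl⟩
  exact h ⟨t, ht, rfl⟩
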